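import Pool.Agent.H.MP_d68d66_lc.B

namespace Pool.Agent.Results.MP_d68d66_lc.Hard

open Pool.Agent.Lib.CX Pool.Agent.Lib.ER

/-- a three-player win-lose game: the numbers of pure strategies in unary and, for each player, the list of the
pure profiles with payoff one (all other payoffs are zero) -/
abbrev Game := (List Unit × List Unit × List Unit) × List (ℕ × ℕ × ℕ) × List (ℕ × ℕ × ℕ) × List (ℕ × ℕ × ℕ)

/-- mixed strategy profiles -/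
structure Profile (g : Game) where
  x : Fin g.1.1.length → ℝ
  y : Fin g.1.2.1.length → ℝ
  z : Fin g.1.2.2.length → ℝ
  hx : x ∈ stdSimplex ℝ (Fin g.1.1.length)
  hy : y ∈ stdSimplex ℝ (Fin g.1.2.1.length)
  hz : z ∈ stdSimplex ℝ (Fin g.1.2.2.length)

/-- the expected payoff of player `p` -/
def U {g : Game} (σ : Profile g) (p : Fin 3) : ℝ :=
  ∑ i, ∑ j, ∑ k, σ.x i * σ.y j * σ.z k * if (i.1, j.1, k.1) ∈ ![g.2.1, g.2.2.1, g.2.2.2] p then 1 else 0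

def Nash {g : Game} (σ : Profile g) : Prop :=
  (∀ τ : Profile g, τ.y = σ.y → τ.z = σ.z → U τ 0 ≤ U σ 0) ∧ (∀ τ : Profile g, τ.x = σ.x → τ.z = σ.z → U τ 1 ≤ U σ 1) ∧
    ∀ τ : Profile g, τ.x = σ.x → τ.y = σ.y → U τ 2 ≤ U σ 2

def Pareto {g : Game} (σ : Profile g) : Prop := ¬∃ τ : Profile g, (∀ p, U σ p ≤ U τ p) ∧ ∃ p, U σ p < U τ p

/-- the game has a Pareto optimal Nash equilibrium -/
def PONE (g : Game) : Prop := ∃ σ : Profile g, Nash σ ∧ Pareto σ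

theorem result : ∀ (α : Type) [Enc α] (A : α → Prop), Red A ETR → Red A PONE := by
  have e : PONE = H.MP_d68d66_lc.PO := funext fun g => propext ⟨fun ⟨σ, ⟨a, b, c⟩, d⟩ =>
    ⟨σ.x, σ.hx, σ.y, σ.hy, σ.z, σ.hz, fun x h => a ⟨x, _, _, h, σ.hy, σ.hz⟩ rfl rfl,
      fun y h => b ⟨_, y, _, σ.hx, h, σ.hz⟩ rfl rfl, fun z h => c ⟨_, _, z, σ.hx, σ.hy, h⟩ rfl rfl,
      fun ⟨x, hx, y, hy, z, hz, p, q, r, s⟩ => d ⟨⟨x, y, z, hx, hy, hz⟩,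
        fun i => by fin_cases i; exacts [p, q, r], s.elim (fun t => ⟨0, t⟩) fun t => t.elim (fun t => ⟨1, t⟩)
          fun t => ⟨2, t⟩⟩⟩,
    fun ⟨x, hx, y, hy, z, hz, a, b, c, d⟩ => ⟨⟨x, y, z, hx, hy, hz⟩,
      ⟨by rintro ⟨x, _, _, h, _, _⟩ ⟨⟩ ⟨⟩; exact a x h, by rintro ⟨_, y, _, _, h, _⟩ ⟨⟩ ⟨⟩; exact b y h,
        by rintro ⟨_, _, z, _, _, h⟩ ⟨⟩ ⟨⟩; exact c z h⟩,
      fun ⟨τ, p, i, q⟩ => d ⟨τ.x, τ.hx, τ.y, τ.hy, τ.z, τ.hz, p 0, p 1, p 2, by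
        fin_cases i; exacts [.inl q, .inr (.inl q), .inr (.inr q)]⟩⟩⟩
  rw [e]
  obtain ⟨g, hg, h⟩ := H.MP_d68d66_lc.hard
  exact fun α _ A ⟨f, hf, h'⟩ => ⟨fun a => g (f a), hg.comp hf, fun a => (h' a).trans (h _)⟩

end Pool.Agent.Results.MP_d68d66_lc.Hard
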